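import Mathlib
import Pool.Agent.Q127.ET.Spec2

/-!
# Project ET, job ET7: a fixed point gives the boundary relation

Adaptation of `Pool.Agent.Q127.EZ.rel_of_fixed2` (with a general source and additional coefficients).
-/

set_option autoImplicit false

open Finset MeasureTheory

namespace Pool.Agent.Q144.ET

open Pool.Agent.H469R10.HO Pool.Agent.H54R3.T469O Pool.Agent.H13R3.EM Pool.Agent.Q127.EZ
open Pool.Agent.Q127.ET

/-- projections of an absolutely convergent series of cosines -/
lemma series_PP {c lam : ℝ} {m : ℕ} (hm1 : 1 ≤ m) {a : ℕ → ℝ} (ha : Summable fun n => |a n|) (j : ℕ) :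
    HasSum (fun n => a n * PP (fun t => Real.cos (uu c lam n * t)) j)
      (PP (fun x => ∑' n, a n * Real.cos (uu c lam n * x)) j) ∧
    HasSum (fun n => a n * PP (DD m (fun y => Real.cos (uu c lam n * y))) j)
      (PP (DD m (fun x => ∑' n, a n * Real.cos (uu c lam n * x))) j) := by
  have hGb : ∀ n x, ‖a n * Real.cos (uu c lam n * x)‖ ≤ |a n| := by
    intro n x
    rw [Real.norm_eq_abs, abs_mul]
    calc |a n| * |Real.cos (uu c lam n * x)| ≤ |a n| * 1 := by
          gcongr
          exact Real.abs_cos_le_one _
      _ = |a n| := mul_one _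
  have hGs : ∀ x, HasSum (fun n => a n * Real.cos (uu c lam n * x)) (∑' n, a n * Real.cos (uu c lam n * x)) :=
    fun x => (Summable.of_norm_bounded ha (fun n => hGb n x)).hasSum
  have hcosB : ∀ n x, |Real.cos (uu c lam n * x)| ≤ 1 := fun n x => Real.abs_cos_le_one _
  have hDc : ∀ n, Continuous (DD m (fun y => Real.cos (uu c lam n * y))) := fun n =>
    Pool.Agent.H469R10.HO.DD_cont hm1 (by fun_prop) (hcosB n)
  constructor
  · have h1 := PP_hasSum (F := fun n x => a n * Real.cos (uu c lam n * x)) (a := fun n => |a n|)
      (fun n => by fun_prop) (fun n x _ => hGb n x) ha j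
      (f := fun x => ∑' n, a n * Real.cos (uu c lam n * x)) (fun x _ => hGs x)
    simpa only [PP_const_mul] using h1
  · have h1 := PP_hasSum (F := fun n x => a n * DD m (fun y => Real.cos (uu c lam n * y)) x)
      (a := fun n => |a n| * 2 ^ (2 * m))
      (fun n => continuous_const.mul (hDc n)) (fun n x hx => by
        rw [abs_mul]
        have h2 := DD_abs (m := m) (hcosB n) x
        have h3 : x ^ (2 * m) ≤ 2 ^ (2 * m) := pow_le_pow_left₀ hx.1 hx.2 _
        have h4 : |DD m (fun y => Real.cos (uu c lam n * y)) x| ≤ 2 ^ (2 * m) := by linarith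
        gcongr) (ha.mul_right _) j (f := DD m (fun x => ∑' n, a n * Real.cos (uu c lam n * x))) (fun x _ => by
        have h2 := (hGs x⁻¹).mul_left (chi x * x ^ (2 * m))
        have h3 : (fun n => a n * DD m (fun y => Real.cos (uu c lam n * y)) x) =
            fun n => chi x * x ^ (2 * m) * (a n * Real.cos (uu c lam n * x⁻¹)) := by
          funext n
          unfold DD
          ring
        rw [h3]
        exact h2)
    simpa only [PP_const_mul] using h1

/-- continuity and boundedness of such a series -/
lemma series_cb {c lam : ℝ} {a : ℕ → ℝ} (ha : Summable fun n => |a n|) :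
    Continuous (fun x => ∑' n, a n * Real.cos (uu c lam n * x)) ∧
    ∀ x, |∑' n, a n * Real.cos (uu c lam n * x)| ≤ ∑' n, |a n| := by
  have hGb : ∀ n x, ‖a n * Real.cos (uu c lam n * x)‖ ≤ |a n| := by
    intro n x
    rw [Real.norm_eq_abs, abs_mul]
    calc |a n| * |Real.cos (uu c lam n * x)| ≤ |a n| * 1 := by
          gcongr
          exact Real.abs_cos_le_one _
      _ = |a n| := mul_one _
  exact ⟨continuous_tsum (fun n => by fun_prop) ha hGb, fun x => tsum_of_norm_bounded ha.hasSum (fun n => hGb n x)⟩

theorem rel : S_Rel := by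
  classical
  intro c lam m B b r s M w hc hlam hm hrc hr0 hr1 hrs hsc hsM hB hne hsum hw hfix
  have hm1 : 1 ≤ m := by omega
  -- coefficients without `n = 1`
  let a : ℕ → ℝ := fun n => if n = 1 then 0 else alp c lam B b n
  have ha : Summable (fun n => |a n|) := by
    refine Summable.of_nonneg_of_le (fun _ => abs_nonneg _) (fun n => ?_) hsum
    simp only [a]
    split_ifs
    · rw [abs_zero]; exact abs_nonneg _
    · exact le_rfl
  let G : ℝ → ℝ := fun x => ∑' n, a n * Real.cos (uu c lam n * x)
  let W : ℝ → ℝ := fun x => ∑' n, w n * Real.cos (uu c lam n * x)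
  obtain ⟨hGc, hGB⟩ : Continuous G ∧ ∀ x, |G x| ≤ ∑' n, |a n| := series_cb ha
  obtain ⟨hWc, hWB⟩ : Continuous W ∧ ∀ x, |W x| ≤ ∑' n, |w n| := series_cb hw
  let h : ℝ → ℝ := hT c lam B b s w
  have hh : ∀ x, h x = s x + G x + W x := fun x => rfl
  have hhc : Continuous h := by
    have : h = fun x => s x + G x + W x := funext hh
    rw [this]
    exact (hsc.add hGc).add hWc
  have hsG : Continuous fun x => s x + G x := hsc.add hGc
  have hsGB : ∀ x, |s x + G x| ≤ M + ∑' n, |a n| := fun x => (abs_add_le _ _).trans (add_le_add (hsM x) (hGB x))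
  have hhB : ∀ x, |h x| ≤ (M + ∑' n, |a n|) + ∑' n, |w n| := fun x => by
    rw [hh x]
    exact (abs_add_le _ _).trans (add_le_add (hsGB x) (hWB x))
  -- the sum over `n = 0` and primes
  have hE : ∀ j, HasSum (fun n => if n = 0 ∨ n.Prime then (if jj c lam n = j then alp c lam B b n else 0) else 0)
      (b j) := by
    intro j
    rcases Nat.eq_zero_or_pos j with rfl | hj
    · have h1 := hasSum_sum_of_ne_finset_zero (L := SummationFilter.unconditional ℕ) (f := fun n => if n = 0 ∨ n.Prime then
          (if jj c lam n = 0 then alp c lam B b n else 0) else 0) (s := {0}) (fun n hn => by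
        have hn0 : n ≠ 0 := by simpa using hn
        by_cases hp : n.Prime
        · simp only [hn0, hp, false_or, if_true]
          split_ifs with hj
          · rw [alp_prime hp]
            unfold bet
            rw [hj]
            rw [if_neg]
            intro hmem
            have := (hB 0 n hmem).1
            omega
          · rfl
        · simp [hn0, hp])
      simp only [sum_singleton, true_or, if_true, Pool.Agent.H469R10.HO.jj_zero hlam] at h1
      have h2 : alp c lam B b 0 = b 0 := by unfold alp; rw [if_pos rfl]
      rwa [h2] at h1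
    · have h1 := hasSum_sum_of_ne_finset_zero (L := SummationFilter.unconditional ℕ) (f := fun n => if n = 0 ∨ n.Prime then
          (if jj c lam n = j then alp c lam B b n else 0) else 0) (s := B j) (fun n hn => by
        by_cases hn0 : n = 0
        · subst hn0
          simp only [true_or, if_true, Pool.Agent.H469R10.HO.jj_zero hlam]
          rw [if_neg (by omega)]
        by_cases hp : n.Prime
        · simp only [hn0, hp, false_or, if_true]
          split_ifs with hj
          · rw [alp_prime hp]
            unfold bet
            rw [hj, if_neg hn]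
          · rfl
        · simp [hn0, hp])
      have h2 : ∑ n ∈ B j, (if n = 0 ∨ n.Prime then
          (if jj c lam n = j then alp c lam B b n else 0) else 0) = b j := by
        have h3 : ∀ n ∈ B j, (if n = 0 ∨ n.Prime then
          (if jj c lam n = j then alp c lam B b n else 0) else 0) = b j / (B j).card := by
          intro n hn
          obtain ⟨-, hp, hnear⟩ := hB j n hn
          have hjn := jj_of_near hnear
          rw [if_pos (Or.inr hp), if_pos hjn, alp_prime hp]
          unfold bet
          rw [hjn, if_pos hn]
        rw [sum_congr rfl h3, sum_const, nsmul_eq_mul]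
        have h4 : ((B j).card : ℝ) ≠ 0 := by
          have := (hne j hj).card_pos
          positivity
        field_simp
      rwa [h2] at h1
  -- the projections
  have hP : ∀ j, PP h j = PP (DD m h) j + PP r j := by
    intro j
    obtain ⟨H1, H2⟩ : HasSum (fun n => a n * PP (fun t => Real.cos (uu c lam n * t)) j) (PP G j) ∧
      HasSum (fun n => a n * PP (DD m (fun y => Real.cos (uu c lam n * y))) j) (PP (DD m G) j) :=
      series_PP hm1 ha j
    obtain ⟨H1w, H2w⟩ : HasSum (fun n => w n * PP (fun t => Real.cos (uu c lam n * t)) j) (PP W j) ∧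
      HasSum (fun n => w n * PP (DD m (fun y => Real.cos (uu c lam n * y))) j) (PP (DD m W) j) :=
      series_PP hm1 hw j
    have H4 : HasSum (fun n => alp c lam B b n * TT c lam m n j) (- PP G j + PP (DD m G) j + b j) := by
      have h1 := ((H1.neg).add H2).add (hE j)
      have h2 : (fun n => alp c lam B b n * TT c lam m n j) = fun n =>
          -(a n * PP (fun t => Real.cos (uu c lam n * t)) j) +
            a n * PP (DD m (fun y => Real.cos (uu c lam n * y))) j +
            (if n = 0 ∨ n.Prime then (if jj c lam n = j then alp c lam B b n else 0) else 0) := by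
        funext n
        by_cases h0 : n = 0 ∨ n.Prime
        · have hn1 : n ≠ 1 := by
            rintro rfl
            rcases h0 with h0 | h0
            · omega
            · exact Nat.not_prime_one h0
          have han : a n = alp c lam B b n := if_neg hn1
          unfold TT
          rw [if_pos h0, if_pos h0, han, PP_sub (by fun_prop) (by fun_prop), PP_cos]
          split_ifs <;> ring
        · by_cases h3 : Squarefree n ∧ 2 ≤ n.primeFactors.card
          · have hn1 : n ≠ 1 := by
              rintro rfl
              simp at h3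
            have han : a n = alp c lam B b n := if_neg hn1
            unfold TT
            rw [if_neg h0, if_neg h0, if_pos h3, han]
            ring
          · by_cases hn1 : n = 1
            · have han : a n = 0 := if_pos hn1
              unfold TT
              rw [if_neg h0, if_neg h0, if_neg h3, han]
              ring
            · have h4 := alp_eq_zero (c := c) (lam := lam) (B := B) (b := b) h0 h3 hn1
              have han : a n = 0 := (if_neg hn1).trans h4
              rw [if_neg h0, h4, han]
              ring
      rw [h2]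
      exact h1
    have H5 : HasSum (fun n => w n * T3 c lam m n j) (- PP W j + PP (DD m W) j) := by
      have h1 := (H1w.neg).add H2w
      have h2 : (fun n => w n * T3 c lam m n j) = fun n =>
          -(w n * PP (fun t => Real.cos (uu c lam n * t)) j) +
            w n * PP (DD m (fun y => Real.cos (uu c lam n * y))) j := by
        funext n
        unfold T3
        ring
      rw [h2]
      exact h1
    have h5 := hfix j
    rw [H4.tsum_eq, H5.tsum_eq] at h5
    have h6 : PP h j = PP s j + PP G j + PP W j := by
      rw [← PP_add hsc hGc j, ← PP_add hsG hWc j]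
      rfl
    have h7 : PP (DD m h) j = PP (DD m s) j + PP (DD m G) j + PP (DD m W) j := by
      have e1 := PP_add (Pool.Agent.H469R10.HO.DD_cont hm1 hsc hsM)
        (Pool.Agent.H469R10.HO.DD_cont hm1 hGc hGB) j
      have e2 := PP_add (f := fun x => DD m s x + DD m G x)
        ((Pool.Agent.H469R10.HO.DD_cont hm1 hsc hsM).add (Pool.Agent.H469R10.HO.DD_cont hm1 hGc hGB))
        (Pool.Agent.H469R10.HO.DD_cont hm1 hWc hWB) j
      rw [← e1, ← e2]
      congr 1
      funext x
      simp only [DD, hh]
      ring
    linarith
  have hDhc : Continuous (DD m h) := Pool.Agent.H469R10.HO.DD_cont hm1 hhc hhB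
  have hL := Pool.Agent.H82R3.T469L.taskL (fun x => (h x - DD m h x) - r x) ((hhc.sub hDhc).sub hrc) (fun j => by
    have h1 : PP (fun x => (h x - DD m h x) - r x) j = 0 := by
      have e1 := PP_sub (f := fun x => h x - DD m h x) (g := r) (hhc.sub hDhc) hrc j
      have e2 := PP_sub hhc hDhc j
      rw [e1, e2, hP j]
      ring
    unfold PP at h1
    have h2 : ww j ≠ 0 := by have := ww_ge j; positivity
    exact (div_eq_zero_iff.mp h1).resolve_right h2)
  have hL' : ∀ x ∈ Set.Icc (0:ℝ) 2, h x = chi x * x ^ (2 * m) * h x⁻¹ + r x := fun x hx => by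
    have := hL x hx
    simp only [DD] at this
    linarith
  have hz1 : ∀ x ∈ Set.Icc (3 / 4 : ℝ) 2, h x = r x := by
    intro x hx
    rw [hL' x ⟨by linarith [hx.1], hx.2⟩, chi_zero hx.1]
    ring
  have hz2 : ∀ x ∈ Set.Icc (4 / 3 : ℝ) 2, h x = 0 := by
    intro x hx
    rw [hz1 x ⟨by linarith [hx.1], hx.2⟩, hr1 x hx.1]
  have hlow : ∀ x : ℝ, 0 < x → x ≤ 4 / 3 → h x = x ^ (2 * m) * h x⁻¹ := by
    intro x hx0 hx1
    rcases le_total x (1 / 2) with h1 | h1
    · rw [hL' x ⟨hx0.le, by linarith⟩, chi_one h1, one_mul, hr0 x hx0.le (by linarith), add_zero]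
    rcases le_total x (3 / 4) with h2 | h2
    · have hi : h x⁻¹ = 0 := by
        apply hz2
        constructor
        · rw [le_inv_comm₀ (by norm_num) hx0]; norm_num; linarith
        · rw [inv_le_comm₀ hx0 (by norm_num)]; linarith
      rw [hL' x ⟨hx0.le, by linarith⟩, hi, hr0 x hx0.le h2]
      ring
    · have hi : h x⁻¹ = r x⁻¹ := by
        apply hz1
        constructor
        · rw [le_inv_comm₀ (by norm_num) hx0]; norm_num; linarith
        · rw [inv_le_comm₀ hx0 (by norm_num)]; linarith
      rw [hz1 x ⟨h2, by linarith⟩, hi]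
      exact hrs x hx0
  have hfinal : ∀ x : ℝ, 0 < x → h x = x ^ (2 * m) * h x⁻¹ := by
    intro x hx
    rcases le_total x (4 / 3) with h1 | h1
    · exact hlow x hx h1
    · have h3 := hlow x⁻¹ (inv_pos.mpr hx) (by
        rw [inv_le_comm₀ hx (by norm_num)]
        norm_num
        linarith)
      rw [inv_inv] at h3
      rw [h3, ← mul_assoc, ← mul_pow, mul_inv_cancel₀ hx.ne', one_pow, one_mul]
  exact ⟨hfinal, fun x hx1 hx2 => hz1 x ⟨hx1, hx2⟩⟩

end Pool.Agent.Q144.ET
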