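import Mathlib
import Pool.Agent.Q127.ET.Spec

/-!
# Project ET, job ET2: scaling of the frequencies
-/

set_option autoImplicit false

open Finset

namespace Pool.Agent.Q144.ET

open Pool.Agent.H469R10.HO

lemma WW_le_WW {c : ℝ} (hc : 0 < c) (hc' : c ≤ 1 / 10) {r : ℝ} (hr : 1 ≤ r) (a y : ℕ)
    (h : (1 + a : ℝ) ≤ 2 * r * (1 + y)) : WW c a ≤ 100 * r ^ 4 * WW c y := by
  unfold WW
  set L := Real.log ((1 + (y : ℝ)) / c) with hL
  have hy1 : (0 : ℝ) < 1 + y := by positivity
  have ha1 : (1 : ℝ) ≤ 1 + a := by have : (0 : ℝ) ≤ a := Nat.cast_nonneg a; linarith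
  have hL2 : 2 ≤ L := by
    have h1 : (10 : ℝ) ≤ (1 + (y : ℝ)) / c := by
      rw [le_div_iff₀ hc]
      have : (0 : ℝ) ≤ y := Nat.cast_nonneg y
      nlinarith
    have h2 : Real.exp 2 ≤ 10 := by
      have h3 : Real.exp 2 = Real.exp 1 * Real.exp 1 := by rw [← Real.exp_add]; norm_num
      have h4 := Real.exp_one_lt_d9
      have h5 := Real.exp_pos 1
      rw [h3]; nlinarith
    rw [hL, Real.le_log_iff_exp_le (by positivity)]
    exact h2.trans h1
  have h2r : 0 < 2 * r := by linarith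
  have hlog : Real.log ((1 + (a : ℝ)) / c) ≤ Real.log (2 * r) + L := by
    rw [hL, ← Real.log_mul (by positivity) (by positivity)]
    apply Real.log_le_log (by positivity)
    rw [mul_div_assoc']
    gcongr
  have hlog0 : 0 ≤ Real.log ((1 + (a : ℝ)) / c) := by
    apply Real.log_nonneg
    rw [le_div_iff₀ hc]; linarith
  have hs : Real.log (2 * r) / 2 ≤ √(2 * r) - 1 := by
    have h3 := Real.log_le_sub_one_of_pos (Real.sqrt_pos.2 h2r)
    rw [Real.log_sqrt h2r.le] at h3
    exact h3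
  have hlr : 0 ≤ Real.log (2 * r) := Real.log_nonneg (by linarith)
  have h3 : Real.log ((1 + (a : ℝ)) / c) ≤ L * √(2 * r) := by
    nlinarith
  have h4 : Real.log ((1 + (a : ℝ)) / c) ^ 4 ≤ L ^ 4 * (2 * r) ^ 2 := by
    calc _ ≤ (L * √(2 * r)) ^ 4 := pow_le_pow_left₀ hlog0 h3 4
      _ = L ^ 4 * ((√(2 * r)) ^ 2) ^ 2 := by ring
      _ = _ := by rw [Real.sq_sqrt h2r.le]
  have hL4 : 0 ≤ L ^ 4 := by positivity
  calc (1 + (a : ℝ)) * Real.log ((1 + (a : ℝ)) / c) ^ 4
      ≤ (2 * r * (1 + y)) * (L ^ 4 * (2 * r) ^ 2) := by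
        apply mul_le_mul h h4 (by positivity) (by positivity)
    _ = 8 * r ^ 3 * ((1 + y) * L ^ 4) := by ring
    _ ≤ 100 * r ^ 4 * ((1 + y) * L ^ 4) := by
        apply mul_le_mul_of_nonneg_right _ (by positivity)
        have : 0 ≤ r ^ 3 := by positivity
        nlinarith

theorem scale : Pool.Agent.Q127.ET.S_Scale := by
  intro c hc hc' r hr S ω β hω
  classical
  have hr0 : 0 < r := by linarith
  have hW : ∀ j, 0 ≤ WW c j := by
    intro j; unfold WW; positivity
  set f : ℕ → ℕ := fun i => cell (r * ω i) with hf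
  set g : ℕ → ℕ := fun i => cell (ω i) with hg
  set s : ℕ → ℕ → ℝ := fun a y => ∑ i ∈ S with f i = a ∧ g i = y, |β i| with hs
  have hs0 : ∀ a y, 0 ≤ s a y := fun a y => sum_nonneg fun i _ => abs_nonneg _
  set A := S.image f with hA
  set Y := S.image g with hY
  -- bounds for a cell
  have hcell : ∀ i ∈ S, (f i : ℝ) ≤ 2 / Real.pi * (r * ω i) + 1 / 2 ∧ 2 / Real.pi * (r * ω i) + 1 / 2 < f i + 1 := by
    intro i hi
    have h0 : 0 ≤ 2 / Real.pi * (r * ω i) + 1 / 2 := by
      have := hω i hi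
      have := Real.pi_pos
      positivity
    exact ⟨Nat.floor_le h0, Nat.lt_floor_add_one _⟩
  have hcell' : ∀ i ∈ S, (g i : ℝ) ≤ 2 / Real.pi * ω i + 1 / 2 ∧ 2 / Real.pi * ω i + 1 / 2 < g i + 1 := by
    intro i hi
    have h0 : 0 ≤ 2 / Real.pi * ω i + 1 / 2 := by
      have := hω i hi
      have := Real.pi_pos
      positivity
    exact ⟨Nat.floor_le h0, Nat.lt_floor_add_one _⟩
  have hWW : ∀ i ∈ S, WW c (f i) ≤ 100 * r ^ 4 * WW c (g i) := by
    intro i hi
    apply WW_le_WW hc hc' hr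
    have h1 := (hcell i hi).1
    have h2 := (hcell' i hi).2
    set z := 2 / Real.pi * ω i with hz
    have h3 : 2 / Real.pi * (r * ω i) = r * z := by rw [hz]; ring
    rw [h3] at h1
    have h4 : (0 : ℝ) ≤ g i := Nat.cast_nonneg _
    nlinarith
  have hcard : ∀ a, ((S.filter fun i => f i = a).image g).card ≤ 2 := by
    intro a
    set X : ℝ := ((a : ℝ) - 1 / 2) / r + 1 / 2 with hX
    have hX0 : 0 ≤ X := by
      have h1 : -(1 / 2) ≤ ((a : ℝ) - 1 / 2) / r := by
        rw [le_div_iff₀ hr0]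
        have : (0 : ℝ) ≤ a := Nat.cast_nonneg a
        nlinarith
      rw [hX]; linarith
    have hsub : (S.filter fun i => f i = a).image g ⊆ {⌊X⌋₊, ⌊X⌋₊ + 1} := by
      intro y hy
      obtain ⟨i, hi, rfl⟩ := mem_image.1 hy
      obtain ⟨hiS, hia⟩ := mem_filter.1 hi
      have h1 := hcell i hiS
      rw [hia] at h1
      set z := 2 / Real.pi * ω i with hz
      have h3 : 2 / Real.pi * (r * ω i) = r * z := by rw [hz]; ring
      rw [h3] at h1
      have h4 : X ≤ z + 1 / 2 := by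
        rw [hX]
        have : ((a : ℝ) - 1 / 2) / r ≤ z := by
          rw [div_le_iff₀ hr0]; nlinarith [h1.1]
        linarith
      have h5 : z + 1 / 2 < X + 1 := by
        have h6 : z < ((a : ℝ) - 1 / 2) / r + 1 := by
          rw [← sub_lt_iff_lt_add, lt_div_iff₀ hr0]
          nlinarith [h1.2]
        rw [hX]; linarith
      have h7 : ⌊X⌋₊ ≤ ⌊z + 1 / 2⌋₊ := Nat.floor_mono h4
      have h8 : ⌊z + 1 / 2⌋₊ < ⌊X⌋₊ + 2 := by
        rw [Nat.floor_lt (hX0.trans h4)]
        have := Nat.lt_floor_add_one X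
        push_cast
        linarith
      have h9 : g i = ⌊z + 1 / 2⌋₊ := by rw [hg]; simp only [cell, hz]
      rw [h9, mem_insert, mem_singleton]
      omega
    exact (card_le_card hsub).trans card_le_two
  -- the fibre sum over a
  have hfa : ∀ a, (∑ i ∈ S.filter (fun i => f i = a), |β i|) ^ 2 ≤ 2 * ∑ y ∈ Y, s a y ^ 2 := by
    intro a
    set T := (S.filter fun i => f i = a).image g with hT
    have h1 : ∑ i ∈ S.filter (fun i => f i = a), |β i| = ∑ y ∈ T, s a y := by
      rw [← sum_fiberwise_of_maps_to (s := S.filter (fun i => f i = a)) (t := T) (g := g)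
        (fun i hi => mem_image_of_mem g hi)]
      apply sum_congr rfl
      intro y _
      rw [hs]
      simp only [filter_filter]
    have hTY : T ⊆ Y := image_subset_image (filter_subset _ _)
    rw [h1]
    have h2 : (T.card : ℝ) ≤ 2 := by exact_mod_cast hcard a
    calc (∑ y ∈ T, s a y) ^ 2 ≤ T.card * ∑ y ∈ T, s a y ^ 2 := sq_sum_le_card_mul_sum_sq
      _ ≤ 2 * ∑ y ∈ T, s a y ^ 2 := mul_le_mul_of_nonneg_right h2 (sum_nonneg fun y _ => sq_nonneg _)
      _ ≤ 2 * ∑ y ∈ Y, s a y ^ 2 := by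
          apply mul_le_mul_of_nonneg_left _ (by norm_num)
          exact sum_le_sum_of_subset_of_nonneg hTY fun y _ _ => sq_nonneg _
  have hfy : ∀ y, ∑ i ∈ S.filter (fun i => g i = y), |β i| = ∑ a ∈ A, s a y := by
    intro y
    rw [← sum_fiberwise_of_maps_to (s := S.filter (fun i => g i = y)) (t := A) (g := f)
        (fun i hi => mem_image_of_mem f (mem_filter.1 hi).1)]
    apply sum_congr rfl
    intro a _
    rw [hs]
    simp only [filter_filter]
    apply sum_congr _ fun _ _ => rfl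
    ext i; simp only [mem_filter]; tauto
  have hterm : ∀ a y, WW c a * s a y ^ 2 ≤ 100 * r ^ 4 * WW c y * s a y ^ 2 := by
    intro a y
    by_cases h : ∃ i ∈ S, f i = a ∧ g i = y
    · obtain ⟨i, hi, rfl, rfl⟩ := h
      exact mul_le_mul_of_nonneg_right (hWW i hi) (sq_nonneg _)
    · have : s a y = 0 := by
        rw [hs]
        apply sum_eq_zero
        intro i hi
        exact absurd ⟨i, (mem_filter.1 hi).1, (mem_filter.1 hi).2⟩ h
      rw [this]; simp
  unfold QQ
  calc ∑ a ∈ A, WW c a * (∑ i ∈ S.filter (fun i => f i = a), |β i|) ^ 2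
      ≤ ∑ a ∈ A, WW c a * (2 * ∑ y ∈ Y, s a y ^ 2) :=
        sum_le_sum fun a _ => mul_le_mul_of_nonneg_left (hfa a) (hW a)
    _ = 2 * ∑ y ∈ Y, ∑ a ∈ A, WW c a * s a y ^ 2 := by
        rw [sum_comm, mul_sum]
        apply sum_congr rfl
        intro a _
        rw [mul_sum, mul_sum, mul_sum]
        apply sum_congr rfl
        intro y _; ring
    _ ≤ 2 * ∑ y ∈ Y, ∑ a ∈ A, 100 * r ^ 4 * WW c y * s a y ^ 2 := by
        apply mul_le_mul_of_nonneg_left _ (by norm_num)
        exact sum_le_sum fun y _ => sum_le_sum fun a _ => hterm a y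
    _ ≤ 2 * ∑ y ∈ Y, 100 * r ^ 4 * WW c y * (∑ a ∈ A, s a y) ^ 2 := by
        apply mul_le_mul_of_nonneg_left _ (by norm_num)
        apply sum_le_sum
        intro y _
        rw [← mul_sum]
        apply mul_le_mul_of_nonneg_left _ (by have := hW y; positivity)
        exact sum_sq_le_sq_sum_of_nonneg (fun a _ => hs0 a y)
    _ = 200 * r ^ 4 * ∑ y ∈ Y, WW c y * (∑ i ∈ S.filter (fun i => g i = y), |β i|) ^ 2 := by
        rw [mul_sum, mul_sum]
        apply sum_congr rfl
        intro y _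
        rw [hfy y]; ring

end Pool.Agent.Q144.ET
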